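import Pool.Agent.Y384.SI.Split

/-! # The exact maximum over split graphs, and all orders at which it beats the conjecture

The conjectured formula for `f(n)` is exactly right for split graphs, except for the odd `n` for
which `n` or `n + 1` is a square, where split graphs exceed it by one. -/

set_option autoImplicit false

namespace Pool.Agent.Results.MP_530eb6_co.SplitExact

open Pool.Agent.Results.MP_530eb6_co.Disproof Pool.Agent.Y384.SI.Split Pool.Agent.Y384.SI.Arith

/-- the conjectured value of `f n` -/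
def conj (n : ℕ) : ℕ := if Even n then (n + 4) ^ 2 / 16 else (n + 3) ^ 2 / 16

/-- **Split graphs and the formula for `f(n)`.**

(1) For every `n ≥ 8` the maximum of `i(G) * i(Gᶜ)` over the split graphs `G` on `n` vertices is
the conjectured value `conj n`, plus one if `n` is odd and `n` or `n + 1` is a square.

(2) For every odd `n ≥ 8` for which `n` or `n + 1` is a square, `f n` exceeds `conj n`; and `f n`
exceeds `conj n` for `n = 5` and `n = 7`, because `f n ≥ n` for all `n ≥ 1`.

(3) In particular the conjectured formula fails for infinitely many `n` of each of the forms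
`k ^ 2` with `k` odd and `k ^ 2 - 1` with `k` even. -/
theorem result :
    (∀ n : ℕ, 8 ≤ n → IsGreatest
      {k : ℕ | ∃ G : SimpleGraph (Fin n), IsSplit G ∧ indepDomNum G * indepDomNum Gᶜ = k}
      (conj n + if Odd n ∧ (IsSquare n ∨ IsSquare (n + 1)) then 1 else 0)) ∧
    (∀ n : ℕ, 8 ≤ n → Odd n → (IsSquare n ∨ IsSquare (n + 1)) → conj n < f n) ∧
    (∀ n : ℕ, 1 ≤ n → n ≤ f n) ∧ conj 5 < f 5 ∧ conj 7 < f 7 ∧
    (∀ k : ℕ, 3 ≤ k → Odd k → f (k ^ 2) ≠ conj (k ^ 2)) ∧
    (∀ k : ℕ, 4 ≤ k → Even k → f (k ^ 2 - 1) ≠ conj (k ^ 2 - 1)) ∧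
    ¬ (∀ n : ℕ, 4 ≤ n → f n = conj n) := by
  classical
  have hval : ∀ n : ℕ, val n =
      conj n + if Odd n ∧ (IsSquare n ∨ IsSquare (n + 1)) then 1 else 0 := by
    intro n
    unfold conj
    rcases Nat.even_or_odd n with h | h
    · rw [val_even h, if_pos h, if_neg (fun h' => Nat.not_even_iff_odd.2 h'.1 h), add_zero]
    · have hne : ¬ Even n := Nat.not_even_iff_odd.2 h
      by_cases hsq : IsSquare n ∨ IsSquare (n + 1)
      · rw [val_odd_sq hne hsq, if_neg hne, if_pos ⟨h, hsq⟩]
      · rw [val_odd_nsq hne hsq, if_neg hne, if_neg (fun h' => hsq h'.2), add_zero]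
  have hmax : ∀ n : ℕ, 8 ≤ n → IsGreatest
      {k : ℕ | ∃ G : SimpleGraph (Fin n), IsSplit G ∧ indepDomNum G * indepDomNum Gᶜ = k}
      (conj n + if Odd n ∧ (IsSquare n ∨ IsSquare (n + 1)) then 1 else 0) := by
    intro n hn
    rw [← hval n]
    constructor
    · obtain ⟨G, hG, hG1⟩ := split_lower hn
      exact ⟨G, hG, le_antisymm (split_upper hn G hG) hG1⟩
    · rintro k ⟨G, hG, rfl⟩
      exact split_upper hn G hG
  have hexc : ∀ n : ℕ, 8 ≤ n → Odd n → (IsSquare n ∨ IsSquare (n + 1)) → conj n < f n := by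
    intro n hn hodd hsq
    obtain ⟨G, hG, hG1⟩ := split_lower hn
    have h1 := (f_isGreatest n).2 ⟨G, rfl⟩
    rw [hval n, if_pos ⟨hodd, hsq⟩] at hG1
    exact lt_of_lt_of_le (Nat.lt_succ_self _) (hG1.trans h1)
  have h5 : conj 5 < f 5 := by
    have h1 : conj 5 = 4 := by
      unfold conj
      rw [if_neg (by decide)]
      norm_num
    rw [h1]
    exact lt_of_lt_of_le (by norm_num) (le_f_complete (by norm_num : 0 < 5))
  have h7 : conj 7 < f 7 := by
    have h1 : conj 7 = 6 := by
      unfold conj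
      rw [if_neg (by decide)]
      norm_num
    rw [h1]
    exact lt_of_lt_of_le (by norm_num) (le_f_complete (by norm_num : 0 < 7))
  refine ⟨hmax, hexc, fun n hn => le_f_complete hn, h5, h7, ?_, ?_, ?_⟩
  · intro k hk hodd
    have h9 : 3 ^ 2 ≤ k ^ 2 := Nat.pow_le_pow_left hk 2
    exact (hexc (k ^ 2) (by omega) hodd.pow (Or.inl ⟨k, by ring⟩)).ne'
  · intro k hk heven
    have h16 : 4 ^ 2 ≤ k ^ 2 := Nat.pow_le_pow_left hk 2
    have h1 : Odd (k ^ 2 - 1) := by
      obtain ⟨r, hr⟩ := heven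
      have e : k ^ 2 = 2 * (2 * r ^ 2) := by rw [hr]; ring
      exact ⟨2 * r ^ 2 - 1, by omega⟩
    exact (hexc (k ^ 2 - 1) (by omega) h1 (Or.inr ⟨k, by
      have : k ^ 2 - 1 + 1 = k ^ 2 := by omega
      rw [this]; ring⟩)).ne'
  · intro h
    have := h 5 (by norm_num)
    omega

end Pool.Agent.Results.MP_530eb6_co.SplitExact
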